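import Pool.Agent.P8H10.ET.StmA
import Pool.Agent.P8H4.KM.Lio

/-! Project ET (helper10), package TRA: the transfer principle. -/

set_option autoImplicit false

open Filter Topology Pool.Agent.R347.LW Pool.Agent.P8H10.ET

namespace Pool.Agent.P8H22.ET

theorem RB_mono {d N d' N' : ℕ} {a : ℂ} (h : RB d N a) (hd : d ≤ d') (hN : N ≤ N') : RB d' N' a := by
  obtain ⟨P, h0, h1, h2, h3⟩ := h
  exact ⟨P, h0, h1.trans hd, fun n => (h2 n).trans (by exact_mod_cast hN), h3⟩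

section
variable {q : ℕ → ℕ} (hq : ∀ k, 2 ≤ q k)

include hq

theorem tow_pos' (a k : ℕ) : 0 < ((tow a (q k) : ℕ) : ℝ) := by
  have := le_tow a (q k)
  have := hq k
  exact_mod_cast (by omega : 0 < tow a (q k))

theorem inv_tow_anti {a b : ℕ} (h : a ≤ b) (k : ℕ) :
    ((tow b (q k) : ℕ) : ℝ)⁻¹ ≤ ((tow a (q k) : ℕ) : ℝ)⁻¹ :=
  inv_anti₀ (tow_pos' hq a k) (by exact_mod_cast tow_mono_left h (q k))

theorem inv_tow_lt {ε : ℝ} (hε : 0 < ε) : ∃ a : ℕ, ∀ k, ((tow a (q k) : ℕ) : ℝ)⁻¹ < ε := by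
  obtain ⟨a, ha⟩ := exists_nat_gt (1 / ε)
  refine ⟨a, fun k => ?_⟩
  have h1 : (a : ℝ) ≤ ((tow a (q k) : ℕ) : ℝ) := by
    have := le_tow a (q k)
    exact_mod_cast (by omega : a ≤ tow a (q k))
  rw [inv_lt_comm₀ (tow_pos' hq a k) hε, ← one_div]
  exact lt_of_lt_of_le ha h1

theorem near {x : ℝ} (hx : RAppr q x) : ∃ H : ℕ, ∀ (κ : ℕ) (A : ℝ), 0 ≤ A → ∀ ε : ℝ, 0 < ε →
    ∃ k₀ : ℕ, ∀ k ≥ k₀, ∃ (u : ℤ) (v : ℕ), 1 ≤ v ∧ v ≤ tow H (q k) ∧ |u| ≤ (tow H (q k) : ℕ) ∧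
      |x - u / v| < ε ∧ A * |x - u / v| ≤ ((tow κ (q k) : ℕ) : ℝ)⁻¹ := by
  obtain ⟨h₀, hh₀⟩ := hx
  obtain ⟨h₁, hh₁⟩ := tow_mul_le hq h₀ 0 ⌈|x| + 1⌉₊
  refine ⟨max h₀ h₁, fun κ A hA ε hε => ?_⟩
  obtain ⟨κ₁, hκ₁⟩ := inv_tow_small hq A hA κ
  obtain ⟨κ₂, hκ₂⟩ := inv_tow_lt hq hε
  obtain ⟨k₀, hk₀⟩ := hh₀ (max κ₁ κ₂)
  refine ⟨k₀, fun k hk => ?_⟩
  obtain ⟨u, v, hv1, hv2, huv⟩ := hk₀ k hk
  have hone : ((tow (max κ₁ κ₂) (q k) : ℕ) : ℝ)⁻¹ ≤ 1 := by
    apply inv_le_one_of_one_le₀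
    have := le_tow (max κ₁ κ₂) (q k)
    have := hq k
    exact_mod_cast (by omega : 1 ≤ tow (max κ₁ κ₂) (q k))
  have hu := num_le hone hv1 huv
  refine ⟨u, v, hv1, hv2.trans (tow_mono_left (le_max_left _ _) _), ?_, ?_, ?_⟩
  · have h2 := hh₁ k v hv2 1 (by have := le_tow 0 (q k); have := hq k; omega)
    rw [mul_one] at h2
    have h3 : u.natAbs ≤ tow (max h₀ h₁) (q k) :=
      (hu.trans h2).trans (tow_mono_left (le_max_right _ _) _)
    rw [← Int.natCast_natAbs]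
    exact_mod_cast h3
  · exact lt_of_le_of_lt (huv.trans (inv_tow_anti hq (le_max_right _ _) k)) (hκ₂ k)
  · exact (mul_le_mul_of_nonneg_left (huv.trans (inv_tow_anti hq (le_max_left _ _) k)) hA).trans
      (hκ₁ k)

end

theorem lipschitz_near {n : ℕ} (f : Fin n → ℂ → ℂ) (x : ℂ) (hf : ∀ i, AnalyticAt ℂ (f i) x) :
    ∃ (C : ℝ) (δ : ℝ), 1 ≤ C ∧ 0 < δ ∧ ∀ z : ℂ, dist z x < δ → ∀ i, ‖f i z - f i x‖ ≤ C * ‖z - x‖ := by
  have h1 : ∀ i, ∃ c : ℝ, ∀ᶠ z in 𝓝 x, ‖f i z - f i x‖ ≤ c * ‖z - x‖ := fun i =>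
    Asymptotics.isBigO_iff.1 (hf i).differentiableAt.isBigO_sub
  choose c hc using h1
  have h2 : ∀ᶠ z in 𝓝 x, ∀ i, ‖f i z - f i x‖ ≤ c i * ‖z - x‖ := eventually_all.2 hc
  obtain ⟨δ, hδ, h3⟩ := Metric.eventually_nhds_iff.1 h2
  refine ⟨1 + ∑ i, |c i|, δ, ?_, hδ, fun z hz i => (h3 hz i).trans ?_⟩
  · have : 0 ≤ ∑ i, |c i| := Finset.sum_nonneg fun i _ => abs_nonneg _
    linarith
  · apply mul_le_mul_of_nonneg_right _ (norm_nonneg _)
    have h4 : |c i| ≤ ∑ i, |c i| :=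
      Finset.single_le_sum (f := fun i => |c i|) (fun i _ => abs_nonneg _) (Finset.mem_univ i)
    have h5 := le_abs_self (c i)
    linarith

theorem dist_rat (x : ℝ) (u : ℤ) (v : ℕ) : ‖((u : ℂ) / (v : ℂ)) - (x : ℂ)‖ = |x - u / v| := by
  have h : ((u : ℂ) / (v : ℂ)) - (x : ℂ) = ((-(x - u / v) : ℝ) : ℂ) := by push_cast; ring
  rw [h, Complex.norm_real, norm_neg, Real.norm_eq_abs]

theorem tra (hCLOS : S_CLOS) : S_TRA := by
  intro q hq x hx hirr n f hf ⟨h, δ, hδ, hRB⟩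
  obtain ⟨H, hH⟩ := near hq hx
  obtain ⟨C, δ', hC, hδ', hlip⟩ := lipschitz_near f x hf
  have hC0 : 0 ≤ C := by linarith
  have hY2 : ∀ k, 2 ≤ tow H (q k) := fun k => by
    have := le_tow H (q k)
    have := hq k
    omega
  refine ⟨fun i => ⟨h + H, fun κ => ?_⟩, fun P hP => ?_⟩
  · obtain ⟨k₀, hk₀⟩ := hH κ C hC0 (min δ δ') (lt_min hδ hδ')
    refine ⟨k₀, fun k hk => ?_⟩
    obtain ⟨u, v, hv1, hv2, hu, h1, h2⟩ := hk₀ k hk
    refine ⟨f i (u / v : ℂ), ?_, ?_⟩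
    · have h3 := hRB (tow H (q k)) (hY2 k) u v hu hv1 hv2 (lt_of_lt_of_le h1 (min_le_left _ _)) i
      rwa [tow_tow] at h3
    · have h3 : dist ((u : ℂ) / v) (x : ℂ) < δ' := by
        rw [dist_eq_norm, dist_rat]
        exact lt_of_lt_of_le h1 (min_le_right _ _)
      have h4 := hlip _ h3 i
      rw [dist_rat] at h4
      rw [norm_sub_rev]
      exact h4.trans h2
  · obtain ⟨hc, hclos⟩ := hCLOS
    obtain ⟨κ₀, hκ₀⟩ := Pool.Agent.P8H4.KM.liou
    obtain ⟨T, C₁, hC₁, hlip₁⟩ := lip (fun i => f i x) P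
    obtain ⟨m, hm⟩ : ∃ m : ℕ, m = n + P.totalDegree + (∑ d ∈ P.support, |P.coeff d|).natAbs :=
      ⟨_, rfl⟩
    rw [Metric.nhdsWithin_basis_ball.frequently_iff]
    intro ε hε
    obtain ⟨k₀, hk₀⟩ := hH (κ₀ + (hc + (h + H + m)) + 1) ((C₁ + 1) * C) (by positivity)
      (min ε (min δ (min δ' (1 / C)))) (lt_min hε (lt_min hδ (lt_min hδ' (by positivity))))
    obtain ⟨u, v, hv1, hv2, hu, h1, h2⟩ := hk₀ k₀ le_rfl
    have hz1 : |x - u / v| < ε := lt_of_lt_of_le h1 (min_le_left _ _)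
    have hz2 : |x - u / v| < δ :=
      lt_of_lt_of_le h1 ((min_le_right _ _).trans (min_le_left _ _))
    have hz3 : |x - u / v| < δ' :=
      lt_of_lt_of_le h1 ((min_le_right _ _).trans ((min_le_right _ _).trans (min_le_left _ _)))
    have hz4 : |x - u / v| < 1 / C :=
      lt_of_lt_of_le h1 ((min_le_right _ _).trans ((min_le_right _ _).trans (min_le_right _ _)))
    have hd3 : dist ((u : ℂ) / v) (x : ℂ) < δ' := by
      rw [dist_eq_norm, dist_rat]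
      exact hz3
    refine ⟨(u : ℂ) / v, ⟨?_, ?_⟩, ?_⟩
    · rw [Metric.mem_ball, dist_eq_norm, dist_rat]
      exact hz1
    · intro h0
      have h3 : ((u : ℂ) / v) = (x : ℂ) := h0
      have h4 : ((u : ℝ) / v) = x := by
        have : (((u : ℝ) / v : ℝ) : ℂ) = (x : ℂ) := by push_cast; exact h3
        exact_mod_cast this
      apply hirr
      exact ⟨(u : ℚ) / v, by push_cast; exact h4⟩
    · by_contra hne
      -- the size
      have hN2 : 2 ≤ tow (h + H + m) (q k₀) := by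
        have := le_tow (h + H + m) (q k₀)
        have := hq k₀
        omega
      have hNm : m ≤ tow (h + H + m) (q k₀) := by
        have := le_tow (h + H + m) (q k₀)
        omega
      have h3 : ∀ i, RB (tow (h + H + m) (q k₀)) (tow (h + H + m) (q k₀)) (f i (u / v : ℂ)) := by
        intro i
        have h4 := hRB (tow H (q k₀)) (hY2 k₀) u v hu hv1 hv2 hz2 i
        rw [tow_tow] at h4
        have h5 : tow (h + H) (q k₀) ≤ tow (h + H + m) (q k₀) := tow_mono_left (by omega) _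
        exact RB_mono h4 h5 h5
      have h4 : Sz (tow (h + H + m) (q k₀)) P := by
        refine ⟨by omega, ?_⟩
        have h5 : ∑ d ∈ P.support, |P.coeff d| ≤ ((∑ d ∈ P.support, |P.coeff d|).natAbs : ℤ) :=
          Int.le_natAbs
        have h6 : (∑ d ∈ P.support, |P.coeff d|).natAbs ≤ tow (h + H + m) (q k₀) := by omega
        exact h5.trans (by exact_mod_cast h6)
      have h5 := hclos _ hN2 n (fun i => f i (u / v : ℂ)) P (by omega) h3 h4
      rw [tow_tow] at h5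
      have h6 : 2 ≤ tow (hc + (h + H + m)) (q k₀) := by
        have := le_tow (hc + (h + H + m)) (q k₀)
        have := hq k₀
        omega
      have h7 := hκ₀ _ h6 _ h5 hne
      rw [tow_tow] at h7
      have h8 := hlip₁ (fun i => f i (u / v : ℂ)) (C * |x - u / v|) (by positivity)
        (by
          have := mul_le_mul_of_nonneg_left hz4.le hC0
          rwa [mul_one_div_cancel (by linarith)] at this)
        (fun i _ => by
          have := hlip _ hd3 i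
          rw [dist_rat] at this
          rwa [norm_sub_rev])
      rw [hP, zero_sub, norm_neg] at h8
      have h9 : C₁ * (C * |x - u / v|) ≤ (C₁ + 1) * C * |x - u / v| := by
        have : 0 ≤ C * |x - u / v| := by positivity
        nlinarith
      have h10 := (h7.trans (h8.trans h9)).trans h2
      have h11 : tow (κ₀ + (hc + (h + H + m))) (q k₀) < tow (κ₀ + (hc + (h + H + m)) + 1) (q k₀) :=
        tow_lt_succ _ _
      have h12 : ((tow (κ₀ + (hc + (h + H + m)) + 1) (q k₀) : ℕ) : ℝ)⁻¹ <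
          ((tow (κ₀ + (hc + (h + H + m))) (q k₀) : ℕ) : ℝ)⁻¹ := by
        apply inv_strictAnti₀ (tow_pos' hq _ _)
        exact_mod_cast h11
      linarith

end Pool.Agent.P8H22.ET
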