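import Pool.Agent.P8H10.ET.StmE
import Pool.Agent.P8H22.ET.Tra

/-! Project ET (helper10), package TRA2: the transfer principle for two real parameters. -/

set_option autoImplicit false

open Filter Topology Pool.Agent.R347.LW Pool.Agent.P8H10.ET

namespace Pool.Agent.P8H22.ET

/-- the point `(u₁ + u₂ τ₀) / v` is near `a + b τ₀` -/
theorem dist2 (a b : ℝ) (τ₀ : ℂ) (u₁ u₂ : ℤ) (v : ℕ) :
    ‖((u₁ : ℂ) + u₂ * τ₀) / v - (a + b * τ₀)‖ ≤ |a - u₁ / v| + |b - u₂ / v| * ‖τ₀‖ := by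
  have h : ((u₁ : ℂ) + u₂ * τ₀) / v - (a + b * τ₀) =
      ((-(a - u₁ / v) : ℝ) : ℂ) + ((-(b - u₂ / v) : ℝ) : ℂ) * τ₀ := by push_cast; ring
  rw [h]
  refine (norm_add_le _ _).trans ?_
  rw [norm_mul, Complex.norm_real, Complex.norm_real, norm_neg, norm_neg, Real.norm_eq_abs,
    Real.norm_eq_abs]

theorem near2 {q : ℕ → ℕ} (hq : ∀ k, 2 ≤ q k) {a b : ℝ} (ha : RAppr q a) (hb : RAppr q b)
    (τ₀ : ℂ) : ∃ H : ℕ, ∀ (κ : ℕ) (A : ℝ), 0 ≤ A → ∀ ε : ℝ, 0 < ε →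
    ∃ k₀ : ℕ, ∀ k ≥ k₀, ∃ (u₁ u₂ : ℤ) (v : ℕ), 1 ≤ v ∧ v ≤ tow H (q k) ∧
      |u₁| ≤ (tow H (q k) : ℕ) ∧ |u₂| ≤ (tow H (q k) : ℕ) ∧
      |a - u₁ / v| < ε ∧ |b - u₂ / v| < ε ∧
      ‖((u₁ : ℂ) + u₂ * τ₀) / v - (a + b * τ₀)‖ < ε ∧
      A * ‖((u₁ : ℂ) + u₂ * τ₀) / v - (a + b * τ₀)‖ ≤ ((tow κ (q k) : ℕ) : ℝ)⁻¹ := by
  obtain ⟨H₁, hH₁⟩ := near hq ha
  obtain ⟨H₂, hH₂⟩ := near hq hb
  obtain ⟨H, hH⟩ := tow_mul_le hq H₁ H₂ 1
  refine ⟨H, fun κ A hA ε hε => ?_⟩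
  have hT : 0 ≤ ‖τ₀‖ := norm_nonneg _
  set B : ℝ := 2 * (A * (1 + ‖τ₀‖)) with hB
  have hB0 : 0 ≤ B := by positivity
  set ε' : ℝ := ε / (2 * (1 + ‖τ₀‖)) with hε'
  have hε'0 : 0 < ε' := by positivity
  have hε'1 : ε' ≤ ε := by
    rw [hε', div_le_iff₀ (by positivity)]
    nlinarith
  obtain ⟨k₁, hk₁⟩ := hH₁ κ B hB0 ε' hε'0
  obtain ⟨k₂, hk₂⟩ := hH₂ κ B hB0 ε' hε'0
  refine ⟨max k₁ k₂, fun k hk => ?_⟩
  obtain ⟨u, v, hv1, hv2, hu, h1, h2⟩ := hk₁ k ((le_max_left _ _).trans hk)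
  obtain ⟨u', v', hv1', hv2', hu', h1', h2'⟩ := hk₂ k ((le_max_right _ _).trans hk)
  have hv0 : (v : ℝ) ≠ 0 := by
    have : (0 : ℝ) < v := by exact_mod_cast hv1
    exact this.ne'
  have hv0' : (v' : ℝ) ≠ 0 := by
    have : (0 : ℝ) < v' := by exact_mod_cast hv1'
    exact this.ne'
  have e1 : (((u * v' : ℤ) : ℝ)) / ((v * v' : ℕ) : ℝ) = u / v := by
    push_cast
    field_simp
  have e2 : (((u' * v : ℤ) : ℝ)) / ((v * v' : ℕ) : ℝ) = u' / v' := by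
    push_cast
    field_simp
  have hn : u.natAbs ≤ tow H₁ (q k) := by
    rw [← Int.natCast_natAbs] at hu
    exact_mod_cast hu
  have hn' : u'.natAbs ≤ tow H₂ (q k) := by
    rw [← Int.natCast_natAbs] at hu'
    exact_mod_cast hu'
  have h3 : |a - ((u * v' : ℤ) : ℝ) / ((v * v' : ℕ) : ℝ)| < ε' := by rw [e1]; exact h1
  have h4 : |b - ((u' * v : ℤ) : ℝ) / ((v * v' : ℕ) : ℝ)| < ε' := by rw [e2]; exact h1'
  have h5 := dist2 a b τ₀ (u * v') (u' * v) (v * v')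
  rw [e1, e2] at h5
  refine ⟨u * v', u' * v, v * v', Nat.mul_pos hv1 hv1', ?_, ?_, ?_, h3.trans_le hε'1,
    h4.trans_le hε'1, ?_, ?_⟩
  · have := hH k v hv2 v' hv2'
    rwa [one_mul] at this
  · have h6 := hH k u.natAbs hn v' hv2'
    rw [one_mul] at h6
    rw [abs_mul, ← Int.natCast_natAbs u]
    have h7 : |((v' : ℕ) : ℤ)| = (v' : ℤ) := abs_of_nonneg (by positivity)
    rw [h7]
    exact_mod_cast h6
  · have h6 := hH k v hv2 u'.natAbs hn'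
    rw [one_mul, mul_comm] at h6
    rw [abs_mul, ← Int.natCast_natAbs u']
    have h7 : |((v : ℕ) : ℤ)| = (v : ℤ) := abs_of_nonneg (by positivity)
    rw [h7]
    exact_mod_cast h6
  · refine lt_of_le_of_lt h5 ?_
    have h6 : |a - u / v| + |b - u' / v'| * ‖τ₀‖ < ε' * (1 + ‖τ₀‖) + ε' * (1 + ‖τ₀‖) := by
      have h7 : |b - u' / v'| * ‖τ₀‖ ≤ ε' * ‖τ₀‖ := mul_le_mul_of_nonneg_right h1'.le hT
      nlinarith
    refine h6.trans_le (le_of_eq ?_)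
    rw [hε']
    field_simp
    ring
  · have h6 : A * ‖(((u * v' : ℤ) : ℂ) + ((u' * v : ℤ) : ℂ) * τ₀) / ((v * v' : ℕ) : ℂ) -
        (a + b * τ₀)‖ ≤ A * (|a - u / v| + |b - u' / v'| * ‖τ₀‖) :=
      mul_le_mul_of_nonneg_left h5 hA
    refine h6.trans ?_
    have h7 : 2 * (A * (|a - u / v| + |b - u' / v'| * ‖τ₀‖)) ≤
        B * |a - u / v| + B * |b - u' / v'| := by
      rw [hB]
      have h8 : 0 ≤ A * |a - u / v| * ‖τ₀‖ := by positivity
      have h9 : 0 ≤ A * |b - u' / v'| := by positivity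
      nlinarith
    linarith

theorem ne2 {a b : ℝ} (hab : Irrational a ∨ Irrational b) {τ₀ : ℂ} (hτ : τ₀.im ≠ 0) (u₁ u₂ : ℤ)
    (v : ℕ) : ((u₁ : ℂ) + u₂ * τ₀) / v ≠ (a + b * τ₀) := by
  intro h
  have h1 : ((u₁ : ℂ) + u₂ * τ₀) / v - (a + b * τ₀) =
      (((u₁ : ℝ) / v - a : ℝ) : ℂ) + (((u₂ : ℝ) / v - b : ℝ) : ℂ) * τ₀ := by push_cast; ring
  rw [h, sub_self] at h1
  have h2 := congrArg Complex.im h1
  rw [Complex.zero_im, Complex.add_im, Complex.ofReal_im, zero_add, Complex.im_ofReal_mul] at h2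
  have h3 : (u₂ : ℝ) / v - b = 0 := by
    rcases mul_eq_zero.1 h2.symm with h3 | h3
    · exact h3
    · exact absurd h3 hτ
  rw [h3, Complex.ofReal_zero, zero_mul, add_zero] at h1
  have h4 : (u₁ : ℝ) / v - a = 0 := by exact_mod_cast h1.symm
  rcases hab with h5 | h5
  · exact h5 ⟨(u₁ : ℚ) / v, by push_cast; linarith⟩
  · exact h5 ⟨(u₂ : ℚ) / v, by push_cast; linarith⟩

theorem tra2 (hCLOS : S_CLOS) : S_TRA2 := by
  intro q hq a b ha hb hab τ₀ hτ n f hf ⟨h, δ, hδ, hRB⟩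
  obtain ⟨H, hH⟩ := near2 hq ha hb τ₀
  obtain ⟨C, δ', hC, hδ', hlip⟩ := lipschitz_near f (a + b * τ₀) hf
  have hC0 : 0 ≤ C := by linarith
  have hY2 : ∀ k, 2 ≤ tow H (q k) := fun k => by
    have := le_tow H (q k)
    have := hq k
    omega
  refine ⟨fun i => ⟨h + H, fun κ => ?_⟩, fun P hP => ?_⟩
  · obtain ⟨k₀, hk₀⟩ := hH κ C hC0 (min δ δ') (lt_min hδ hδ')
    refine ⟨k₀, fun k hk => ?_⟩
    obtain ⟨u₁, u₂, v, hv1, hv2, hu₁, hu₂, h1, h1', h3, h2⟩ := hk₀ k hk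
    refine ⟨f i (((u₁ : ℂ) + u₂ * τ₀) / v), ?_, ?_⟩
    · have h3 := hRB (tow H (q k)) (hY2 k) u₁ u₂ v hu₁ hu₂ hv1 hv2
        (lt_of_lt_of_le h1 (min_le_left _ _)) (lt_of_lt_of_le h1' (min_le_left _ _)) i
      rwa [tow_tow] at h3
    · have h3 : dist (((u₁ : ℂ) + u₂ * τ₀) / v) ((a : ℂ) + b * τ₀) < δ' := by
        rw [dist_eq_norm]
        exact lt_of_lt_of_le h3 (min_le_right _ _)
      have h4 := hlip _ h3 i
      rw [norm_sub_rev]
      exact h4.trans h2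
  · obtain ⟨hc, hclos⟩ := hCLOS
    obtain ⟨κ₀, hκ₀⟩ := Pool.Agent.P8H4.KM.liou
    obtain ⟨T, C₁, hC₁, hlip₁⟩ := lip (fun i => f i (a + b * τ₀)) P
    obtain ⟨m, hm⟩ : ∃ m : ℕ, m = n + P.totalDegree + (∑ d ∈ P.support, |P.coeff d|).natAbs :=
      ⟨_, rfl⟩
    rw [Metric.nhdsWithin_basis_ball.frequently_iff]
    intro ε hε
    obtain ⟨k₀, hk₀⟩ := hH (κ₀ + (hc + (h + H + m)) + 1) ((C₁ + 1) * C) (by positivity)
      (min ε (min δ (min δ' (1 / C)))) (lt_min hε (lt_min hδ (lt_min hδ' (by positivity))))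
    obtain ⟨u₁, u₂, v, hv1, hv2, hu₁, hu₂, h1, h1', h1'', h2⟩ := hk₀ k₀ le_rfl
    obtain ⟨z, hz⟩ : ∃ z : ℂ, z = ((u₁ : ℂ) + u₂ * τ₀) / v := ⟨_, rfl⟩
    rw [← hz] at h1'' h2
    have hz2 : |a - u₁ / v| < δ :=
      lt_of_lt_of_le h1 ((min_le_right _ _).trans (min_le_left _ _))
    have hz2' : |b - u₂ / v| < δ :=
      lt_of_lt_of_le h1' ((min_le_right _ _).trans (min_le_left _ _))
    have hz1 : ‖z - (a + b * τ₀)‖ < ε := lt_of_lt_of_le h1'' (min_le_left _ _)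
    have hz3 : ‖z - (a + b * τ₀)‖ < δ' :=
      lt_of_lt_of_le h1'' ((min_le_right _ _).trans ((min_le_right _ _).trans (min_le_left _ _)))
    have hz4 : ‖z - (a + b * τ₀)‖ < 1 / C :=
      lt_of_lt_of_le h1'' ((min_le_right _ _).trans ((min_le_right _ _).trans (min_le_right _ _)))
    have hd3 : dist z ((a : ℂ) + b * τ₀) < δ' := by
      rw [dist_eq_norm]
      exact hz3
    refine ⟨z, ⟨?_, ?_⟩, ?_⟩
    · rw [Metric.mem_ball, dist_eq_norm]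
      exact hz1
    · intro h0
      have h3 : z = (a : ℂ) + b * τ₀ := h0
      rw [hz] at h3
      exact ne2 hab hτ u₁ u₂ v h3
    · by_contra hne
      -- the size
      have hN2 : 2 ≤ tow (h + H + m) (q k₀) := by
        have := le_tow (h + H + m) (q k₀)
        have := hq k₀
        omega
      have hNm : m ≤ tow (h + H + m) (q k₀) := by
        have := le_tow (h + H + m) (q k₀)
        omega
      have h3 : ∀ i, RB (tow (h + H + m) (q k₀)) (tow (h + H + m) (q k₀)) (f i z) := by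
        intro i
        have h4 := hRB (tow H (q k₀)) (hY2 k₀) u₁ u₂ v hu₁ hu₂ hv1 hv2 hz2 hz2' i
        rw [tow_tow, ← hz] at h4
        have h5 : tow (h + H) (q k₀) ≤ tow (h + H + m) (q k₀) := tow_mono_left (by omega) _
        exact RB_mono h4 h5 h5
      have h4 : Sz (tow (h + H + m) (q k₀)) P := by
        refine ⟨by omega, ?_⟩
        have h5 : ∑ d ∈ P.support, |P.coeff d| ≤ ((∑ d ∈ P.support, |P.coeff d|).natAbs : ℤ) :=
          Int.le_natAbs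
        have h6 : (∑ d ∈ P.support, |P.coeff d|).natAbs ≤ tow (h + H + m) (q k₀) := by omega
        exact h5.trans (by exact_mod_cast h6)
      have h5 := hclos _ hN2 n (fun i => f i z) P (by omega) h3 h4
      rw [tow_tow] at h5
      have h6 : 2 ≤ tow (hc + (h + H + m)) (q k₀) := by
        have := le_tow (hc + (h + H + m)) (q k₀)
        have := hq k₀
        omega
      have h7 := hκ₀ _ h6 _ h5 hne
      rw [tow_tow] at h7
      have h8 := hlip₁ (fun i => f i z) (C * ‖z - (a + b * τ₀)‖) (by positivity)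
        (by
          have := mul_le_mul_of_nonneg_left hz4.le hC0
          rwa [mul_one_div_cancel (by linarith)] at this)
        (fun i _ => by
          have := hlip _ hd3 i
          rwa [norm_sub_rev])
      rw [hP, zero_sub, norm_neg] at h8
      have h9 : C₁ * (C * ‖z - (a + b * τ₀)‖) ≤ (C₁ + 1) * C * ‖z - (a + b * τ₀)‖ := by
        have : 0 ≤ C * ‖z - (a + b * τ₀)‖ := by positivity
        nlinarith
      have h10 := (h7.trans (h8.trans h9)).trans h2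
      have h11 : tow (κ₀ + (hc + (h + H + m))) (q k₀) < tow (κ₀ + (hc + (h + H + m)) + 1) (q k₀) :=
        tow_lt_succ _ _
      have h12 : ((tow (κ₀ + (hc + (h + H + m)) + 1) (q k₀) : ℕ) : ℝ)⁻¹ <
          ((tow (κ₀ + (hc + (h + H + m))) (q k₀) : ℕ) : ℝ)⁻¹ := by
        apply inv_strictAnti₀ (tow_pos' hq _ _)
        exact_mod_cast h11
      linarith

end Pool.Agent.P8H22.ET
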